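import Pool.Agent.MP_a4a5b6_lc.H97.Group

/-!
In the group `G`, every comeager set contains a two-sided translate of every compact set.
-/

set_option autoImplicit false

open Set Filter Topology

namespace Pool.Agent.MP_a4a5b6_lc.H97

theorem step {O : Set G} (hO : IsOpen O) (hd : Dense O) (k g₀ h₀ : G) {c p q : ℚ}
    (hq : c < q) (hp : ap k c < p) :
    ∃ (g₁ h₁ : G) (q₁ : ℚ), c < q₁ ∧ q₁ ≤ q ∧ ap k q₁ ≤ p ∧ Ag p g₀ g₁ ∧ Ag q h₀ h₁ ∧
      ∀ g h k' : G, Ag (ap k q₁) g₁ g → Ag q₁ h₁ h → Ag q₁ k k' → g * k' * h⁻¹ ∈ O := by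
  set q' : ℚ := min q (ap k⁻¹ p) with hq'
  have hcq' : c < q' := by
    refine lt_min hq ?_
    have := (ap k⁻¹).strictMono hp
    rwa [ap_inv_self] at this
  have hkq' : ap k q' ≤ p := by
    have := (ap k).monotone (min_le_right q (ap k⁻¹ p))
    rwa [ap_self_inv] at this
  obtain ⟨y, hy, hyO⟩ : ∃ y, Ag (ap h₀ q') (g₀ * k * h₀⁻¹) y ∧ y ∈ O := by
    obtain ⟨y, hy1, hy2⟩ := mem_closure_iff_nhds.1 (hd (g₀ * k * h₀⁻¹)) _
      (eventually_Ag (ap h₀ q') (g₀ * k * h₀⁻¹))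
    exact ⟨y, hy1, hy2⟩
  obtain ⟨b₀, hb₀⟩ := mem_nhds_iff'.1 (hO.mem_nhds hyO)
  set s : ℚ := min (ap h₀⁻¹ b₀) (q' - 1) with hs
  have hsq : s < q' := (min_le_right _ _).trans_lt (by linarith)
  have hsb : ap h₀ s ≤ b₀ := by
    have := (ap h₀).monotone (min_le_left (ap h₀⁻¹ b₀) (q' - 1))
    rwa [ap_self_inv] at this
  obtain ⟨q₁, hq₁c, hq₁q⟩ := exists_between hcq'
  obtain ⟨v, hv, hvs⟩ := exists_move hq₁q hsq
  refine ⟨y * (h₀ * v) * k⁻¹, h₀ * v, q₁, hq₁c, hq₁q.le.trans (min_le_left _ _),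
    ((ap k).monotone hq₁q.le).trans hkq', ?_, ?_, ?_⟩
  · intro z hz
    have h1 : q' ≤ ap k⁻¹ z := by
      have := (ap k⁻¹).monotone (hkq'.trans hz)
      rwa [ap_inv_self] at this
    simp only [ap_mul_apply]
    rw [hv _ h1, hy _ ((ap h₀).monotone h1)]
    simp only [ap_mul_apply, ap_inv_self, ap_self_inv]
  · intro z hz
    rw [ap_mul_apply, hv _ ((min_le_left _ _).trans hz)]
  · intro g h k' hg hh hk
    refine hb₀ _ (Ag.mono ?_ hsb)
    intro z hz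
    have e : ap (h₀ * v) q₁ = ap h₀ s := by rw [ap_mul_apply, hvs]
    have h1 : q₁ ≤ ap (h₀ * v)⁻¹ z := by
      have := (ap (h₀ * v)⁻¹).monotone hz
      rwa [← e, ap_inv_self] at this
    have h2 : ap h⁻¹ z = ap (h₀ * v)⁻¹ z := by
      have := hh _ h1
      rw [ap_self_inv] at this
      conv_lhs => rw [← this, ap_inv_self]
    rw [ap_mul_apply, ap_mul_apply, h2, hk _ h1, hg _ ((ap k).monotone h1), ap_mul_apply,
      ap_inv_self, ap_mul_apply, ap_self_inv]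

theorem finite_catch {O : Set G} (hO : IsOpen O) (hd : Dense O) (c : ℚ) (F : Finset G) :
    ∀ (g₀ h₀ : G) (p q : ℚ), c < q → (∀ k ∈ F, ap k c < p) →
      ∃ g h : G, Ag p g₀ g ∧ Ag q h₀ h ∧ ∀ k ∈ F, ∀ k', Ag c k k' → g * k' * h⁻¹ ∈ O := by
  classical
  induction F using Finset.induction_on_max_value (fun k => ap k c) with
  | empty => exact fun g₀ h₀ p q _ _ => ⟨g₀, h₀, Ag.refl _ _, Ag.refl _ _, by simp⟩
  | insert k F _ hmax ih =>
    intro g₀ h₀ p q hq hp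
    obtain ⟨g₁, h₁, q₁, hc, hq₁, hp₁, hg₁, hh₁, hO₁⟩ :=
      step hO hd k g₀ h₀ hq (hp k (Finset.mem_insert_self _ _))
    obtain ⟨g, h, hg, hh, hF⟩ := ih g₁ h₁ (ap k q₁) q₁ hc
      (fun j hj => (hmax j hj).trans_lt ((ap k).strictMono hc))
    refine ⟨g, h, hg₁.trans (hg.mono hp₁), hh₁.trans (hh.mono hq₁), fun j hj k' hk' => ?_⟩
    rcases Finset.mem_insert.1 hj with rfl | hj
    · exact hO₁ g h k' hg hh (hk'.mono hc.le)
    · exact hF j hj k' hk'

theorem isOpen_Ag (a : ℚ) (g : G) : IsOpen {g' | Ag a g g'} :=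
  isOpen_iff_mem_nhds.2 fun _ h => mem_nhds_iff'.2 ⟨a, fun _ h' => Ag.trans h h'⟩

theorem compact_catch {O K : Set G} (hO : IsOpen O) (hd : Dense O) (hK : IsCompact K)
    (g₀ h₀ : G) (p q : ℚ) :
    ∃ g h : G, Ag p g₀ g ∧ Ag q h₀ h ∧ ∀ k ∈ K, g * k * h⁻¹ ∈ O := by
  obtain ⟨c₀, hc₀⟩ : ∃ c₀ : ℚ, K ⊆ {k | ap k c₀ < p} := by
    refine hK.elim_directed_cover (fun c : ℚ => {k : G | ap k c < p}) (fun c => ?_) ?_ ?_
    · refine isOpen_iff_mem_nhds.2 fun k hk => mem_nhds_iff'.2 ⟨c, fun k' hk' => ?_⟩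
      have : ap k' c = ap k c := hk' c le_rfl
      simpa [this] using hk
    · intro k _
      refine mem_iUnion.2 ⟨ap k⁻¹ p - 1, ?_⟩
      have := (ap k).strictMono (show ap k⁻¹ p - 1 < ap k⁻¹ p by linarith)
      rwa [ap_self_inv] at this
    · intro a b
      exact ⟨min a b, fun k hk => ((ap k).monotone (min_le_left _ _)).trans_lt hk,
        fun k hk => ((ap k).monotone (min_le_right _ _)).trans_lt hk⟩
  set c : ℚ := min c₀ (q - 1)
  have hcq : c < q := (min_le_right _ _).trans_lt (by linarith)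
  obtain ⟨F, hFK, hF⟩ := hK.elim_nhds_subcover (fun k => {k' | Ag c k k'})
    (fun k _ => eventually_Ag c k)
  obtain ⟨g, h, hg, hh, hgh⟩ := finite_catch hO hd c F g₀ h₀ p q hcq
    (fun k hk => ((ap k).monotone (min_le_left _ _)).trans_lt (hc₀ (hFK k hk)))
  refine ⟨g, h, hg, hh, fun k' hk' => ?_⟩
  obtain ⟨k, hk, hkk'⟩ := mem_iUnion₂.1 (hF hk')
  exact hgh k hk k' hkk'

theorem dense_catch {O K : Set G} (hO : IsOpen O) (hd : Dense O) (hK : IsCompact K) :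
    Dense {z : G × G | ∀ k ∈ K, z.1 * k * z.2⁻¹ ∈ O} := by
  rintro ⟨g₀, h₀⟩
  refine mem_closure_iff_nhds.2 fun t ht => ?_
  obtain ⟨u, hu, v, hv, huv⟩ := mem_nhds_prod_iff.1 ht
  obtain ⟨p, hp⟩ := mem_nhds_iff'.1 hu
  obtain ⟨q, hq⟩ := mem_nhds_iff'.1 hv
  obtain ⟨g, h, hg, hh, hgh⟩ := compact_catch hO hd hK g₀ h₀ p q
  exact ⟨(g, h), huv ⟨hp g hg, hq h hh⟩, hgh⟩

theorem isOpen_catch {O K : Set G} (hO : IsOpen O) (hK : IsCompact K) :
    IsOpen {z : G × G | ∀ k ∈ K, z.1 * k * z.2⁻¹ ∈ O} := by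
  refine isOpen_iff_mem_nhds.2 fun z hz => ?_
  refine hK.eventually_forall_of_forall_eventually
    (P := fun (z : G × G) (k : G) => z.1 * k * z.2⁻¹ ∈ O) fun k hk => ?_
  have hc : Continuous fun w : (G × G) × G => w.1.1 * w.2 * w.1.2⁻¹ := by fun_prop
  exact (hc.tendsto (z, k)).eventually (hO.mem_nhds (hz k hk))

/-- every comeager set contains a two-sided translate of every compact set -/
theorem residual_catch {B K : Set G} (hB : B ∈ residual G) (hK : IsCompact K) :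
    ∃ g h : G, ∀ k ∈ K, g * k * h⁻¹ ∈ B := by
  obtain ⟨S, hSo, hSd, hSc, hSB⟩ := mem_residual_iff.1 hB
  have : Dense (⋂ O ∈ S, {z : G × G | ∀ k ∈ K, z.1 * k * z.2⁻¹ ∈ O}) :=
    dense_biInter_of_isOpen (fun O hO => isOpen_catch (hSo O hO) hK) hSc
      (fun O hO => dense_catch (hSo O hO) (hSd O hO) hK)
  obtain ⟨z, hz⟩ := this.nonempty
  refine ⟨z.1, z.2, fun k hk => hSB fun O hO => ?_⟩
  exact mem_iInter₂.1 hz O hO k hk

theorem dense_compl_single (g : G) : Dense ({g}ᶜ : Set G) := by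
  intro f
  refine mem_closure_iff_nhds.2 fun t ht => ?_
  obtain ⟨a, ha⟩ := mem_nhds_iff'.1 ht
  by_cases hfg : f = g
  · subst hfg
    obtain ⟨v, hv, hvs⟩ := exists_move (q := a) (s := a - 1) (t := a - 2) (by linarith) (by linarith)
    refine ⟨f * v, ha _ fun x hx => by rw [ap_mul_apply, hv x hx], fun h => ?_⟩
    have h1 : ap (f * v) (a - 1) = ap f (a - 1) := by rw [mem_singleton_iff.1 h]
    rw [ap_mul_apply, hvs] at h1
    have := (ap f).injective h1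
    linarith
  · exact ⟨f, ha f (Ag.refl _ _), hfg⟩

theorem uncountable_G : Uncountable G := by
  rw [← not_countable_iff]
  intro hc
  have : Dense (⋂ g ∈ (univ : Set G), ({g}ᶜ : Set G)) :=
    dense_biInter_of_isOpen (fun g _ => isOpen_compl_singleton) countable_univ
      (fun g _ => dense_compl_single g)
  obtain ⟨z, hz⟩ := this.nonempty
  exact mem_iInter₂.1 hz z (mem_univ _) rfl

end Pool.Agent.MP_a4a5b6_lc.H97
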