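import Mathlib

/-!
A Polish group `G` of order automorphisms of `ℚ`: those whose restriction to every right
half-line agrees with an element of a fixed countable group of piecewise linear maps.
Two elements are close when they agree on a long right half-line.
-/

set_option autoImplicit false

open Set Filter Topology

namespace Pool.Agent.MP_a4a5b6_lc.H97

/-- order automorphisms of the rationals -/
abbrev P : Type := ℚ ≃o ℚ

/-- the underlying function of the basic piecewise linear map -/
def bendFun (q r : ℚ) (x : ℚ) : ℚ := if q ≤ x then x else q - r * (q - x)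

theorem bendFun_strictMono (q r : ℚ) (hr : 0 < r) : StrictMono (bendFun q r) := by
  intro x y hxy
  unfold bendFun
  split_ifs with h1 h2 h2
  · exact hxy
  · exact absurd (h1.trans hxy.le) h2
  · have : 0 < r * (q - x) := mul_pos hr (by linarith [not_le.1 h1])
    linarith
  · have : r * (q - y) < r * (q - x) := mul_lt_mul_of_pos_left (by linarith) hr
    linarith

theorem bendFun_surjective (q r : ℚ) (hr : 0 < r) : Function.Surjective (bendFun q r) := by
  intro y
  by_cases h : q ≤ y
  · exact ⟨y, by simp [bendFun, h]⟩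
  · refine ⟨q - (q - y) / r, ?_⟩
    have h1 : 0 < (q - y) / r := div_pos (by linarith [not_le.1 h]) hr
    have h2 : ¬ q ≤ q - (q - y) / r := by linarith
    simp only [bendFun, h2, if_false]
    field_simp
    ring

/-- index set of the generators -/
abbrev I : Type := ℚ × {r : ℚ // 0 < r}

/-- the map which is the identity on `[q, ∞)` and has slope `r` to the left of `q` -/
noncomputable def bend (i : I) : P :=
  (bendFun_strictMono i.1 i.2.1 i.2.2).orderIsoOfSurjective _ (bendFun_surjective i.1 i.2.1 i.2.2)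

theorem bend_apply (i : I) (x : ℚ) : bend i x = bendFun i.1 i.2.1 x := rfl

/-- parametrisation of the countable group generated by the bends -/
noncomputable def gam : FreeGroup I →* P := FreeGroup.lift bend

theorem P_mul_apply (f g : P) (x : ℚ) : (f * g) x = f (g x) := rfl
theorem P_one_apply (x : ℚ) : (1 : P) x = x := rfl
theorem P_inv_apply_self (f : P) (x : ℚ) : f⁻¹ (f x) = x := by
  rw [← P_mul_apply, inv_mul_cancel, P_one_apply]
theorem P_apply_inv_self (f : P) (x : ℚ) : f (f⁻¹ x) = x := by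
  rw [← P_mul_apply, mul_inv_cancel, P_one_apply]

/-- the group, as a subgroup of the order automorphisms -/
def GS : Subgroup P where
  carrier := {g | ∀ a : ℚ, ∃ w : FreeGroup I, ∀ x, a ≤ x → g x = gam w x}
  one_mem' := fun _ => ⟨1, fun x _ => by simp⟩
  mul_mem' := by
    intro f g hf hg a
    obtain ⟨w, hw⟩ := hg a
    obtain ⟨v, hv⟩ := hf (g a)
    refine ⟨v * w, fun x hx => ?_⟩
    rw [map_mul, P_mul_apply, P_mul_apply, hv _ (g.monotone hx), hw x hx]
  inv_mem' := by
    intro g hg a
    obtain ⟨w, hw⟩ := hg (g⁻¹ a)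
    refine ⟨w⁻¹, fun x hx => ?_⟩
    have h1 : g (g⁻¹ x) = gam w (g⁻¹ x) := hw _ ((g⁻¹ : P).monotone hx)
    rw [P_apply_inv_self] at h1
    rw [map_inv]
    conv_rhs => rw [h1, P_inv_apply_self]

/-- the group -/
def G : Type := GS

noncomputable instance instGroupG : Group G := inferInstanceAs (Group GS)

/-- the action on the rationals -/
def ap (g : G) : P := (show GS from g).1

theorem ap_mul (f g : G) : ap (f * g) = ap f * ap g := rfl
theorem ap_one : ap 1 = 1 := rfl
theorem ap_inv (f : G) : ap f⁻¹ = (ap f)⁻¹ := rfl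
theorem ap_mul_apply (f g : G) (x : ℚ) : ap (f * g) x = ap f (ap g x) := rfl
theorem ap_inv_self (f : G) (x : ℚ) : ap f⁻¹ (ap f x) = x := P_inv_apply_self _ _
theorem ap_self_inv (f : G) (x : ℚ) : ap f (ap f⁻¹ x) = x := P_apply_inv_self _ _
theorem ap_mem (g : G) (a : ℚ) : ∃ w : FreeGroup I, ∀ x, a ≤ x → ap g x = gam w x :=
  (show GS from g).2 a
theorem G_ext {f g : G} (h : ∀ x, ap f x = ap g x) : f = g :=
  Subtype.ext (RelIso.ext h)

/-- a bend as an element of the group -/
noncomputable def bendG (i : I) : G :=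
  (⟨bend i, fun _ => ⟨FreeGroup.of i, fun x _ => by simp [gam]⟩⟩ : GS)

theorem ap_bendG (i : I) (x : ℚ) : ap (bendG i) x = bendFun i.1 i.2.1 x := rfl

/-- slowing down: below `q` any point can be moved to any other point, fixing `[q, ∞)` -/
theorem exists_move {q s t : ℚ} (hs : s < q) (ht : t < q) :
    ∃ v : G, (∀ x, q ≤ x → ap v x = x) ∧ ap v s = t := by
  have h1 : 0 < q - s := by linarith
  refine ⟨bendG (q, ⟨(q - t) / (q - s), div_pos (by linarith) h1⟩), fun x hx => ?_, ?_⟩
  · simp [ap_bendG, bendFun, hx]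
  · simp only [ap_bendG, bendFun, not_le.2 hs, if_false]
    field_simp
    ring

/-- agreement on the half-line `[a, ∞)` -/
def Ag (a : ℚ) (g g' : G) : Prop := ∀ x, a ≤ x → ap g' x = ap g x

theorem Ag.refl (a : ℚ) (g : G) : Ag a g g := fun _ _ => rfl
theorem Ag.mono {a b : ℚ} {g g' : G} (h : Ag a g g') (hab : a ≤ b) : Ag b g g' :=
  fun x hx => h x (hab.trans hx)
theorem Ag.trans {a : ℚ} {g g' g'' : G} (h : Ag a g g') (h' : Ag a g' g'') : Ag a g g'' :=
  fun x hx => (h' x hx).trans (h x hx)
theorem Ag.symm {a : ℚ} {g g' : G} (h : Ag a g g') : Ag a g' g :=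
  fun x hx => (h x hx).symm
theorem Ag.inv {a : ℚ} {g g' : G} (h : Ag (ap g⁻¹ a) g g') : Ag a g⁻¹ g'⁻¹ := by
  intro x hx
  have h1 : ap g' (ap g⁻¹ x) = ap g (ap g⁻¹ x) := h _ ((ap g⁻¹).monotone hx)
  rw [ap_self_inv] at h1
  conv_lhs => rw [← h1, ap_inv_self]
theorem Ag.mul {a : ℚ} {f f' g g' : G} (hf : Ag (ap g a) f f') (hg : Ag a g g') :
    Ag a (f * g) (f' * g') := by
  intro x hx
  rw [ap_mul_apply, ap_mul_apply, hg x hx, hf _ ((ap g).monotone hx)]

/-- restriction of a map to `[-n, ∞)` -/
def res (n : ℕ) (f : P) : ℚ → ℚ := fun x => f (max x (-(n : ℚ)))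

/-- the countable set of possible restrictions -/
def D : Type := {φ : ℚ → ℚ // ∃ p : ℕ × FreeGroup I, φ = res p.1 (gam p.2)}

instance : Countable D := by
  have : {φ : ℚ → ℚ | ∃ p : ℕ × FreeGroup I, φ = res p.1 (gam p.2)}.Countable := by
    have h := Set.countable_range (fun p : ℕ × FreeGroup I => res p.1 (gam p.2))
    refine h.mono ?_
    rintro φ ⟨p, rfl⟩
    exact ⟨p, rfl⟩
  exact this.to_subtype

instance : TopologicalSpace D := ⊥
instance : DiscreteTopology D := ⟨rfl⟩

/-- restriction of an element of the group -/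
def resG (n : ℕ) (g : G) : D :=
  ⟨res n (ap g), by
    obtain ⟨w, hw⟩ := ap_mem g (-(n : ℚ))
    exact ⟨(n, w), funext fun x => hw _ (le_max_right _ _)⟩⟩

theorem resG_eq_iff {n : ℕ} {g g' : G} : resG n g' = resG n g ↔ Ag (-(n : ℚ)) g g' := by
  constructor
  · intro h x hx
    have h1 : res n (ap g') x = res n (ap g) x := congrFun (congrArg Subtype.val h) x
    simpa [res, max_eq_left hx] using h1
  · intro h
    exact Subtype.ext (funext fun x => h _ (le_max_right _ _))

/-- the embedding defining the topology -/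
noncomputable def Phi (g : G) : ℕ → D × D := fun n => (resG n g, resG n g⁻¹)

noncomputable instance instTopG : TopologicalSpace G := TopologicalSpace.induced Phi inferInstance

theorem Phi_inducing : IsInducing Phi := ⟨rfl⟩

theorem exists_nat_neg_le (a : ℚ) : ∃ n : ℕ, -(n : ℚ) ≤ a := by
  obtain ⟨n, hn⟩ := exists_nat_ge (-a)
  exact ⟨n, by linarith⟩

theorem le_nhds_iff' (l : Filter G) (g : G) : l ≤ 𝓝 g ↔ ∀ a, ∀ᶠ g' in l, Ag a g g' := by
  rw [Phi_inducing.nhds_eq_comap, ← tendsto_iff_comap, tendsto_pi_nhds]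
  simp only [nhds_discrete, tendsto_pure, Phi, Prod.mk.injEq, resG_eq_iff]
  constructor
  · intro h a
    obtain ⟨n, hn⟩ := exists_nat_neg_le a
    exact (h n).mono fun g' hg' => hg'.1.mono hn
  · intro h n
    exact ((h _).and (h _)).mono fun g' hg' => ⟨hg'.1, hg'.2.inv⟩

theorem eventually_Ag (a : ℚ) (g : G) : ∀ᶠ g' in 𝓝 g, Ag a g g' :=
  (le_nhds_iff' _ g).1 le_rfl a

theorem mem_nhds_iff' {s : Set G} {g : G} : s ∈ 𝓝 g ↔ ∃ a, ∀ g', Ag a g g' → g' ∈ s := by
  constructor
  · intro hs
    have hb : (⨅ a : ℚ, 𝓟 {g' | Ag a g g'}).HasBasis (fun _ => True) (fun a => {g' | Ag a g g'}) := by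
      apply hasBasis_iInf_principal
      intro a b
      exact ⟨min a b, fun _ h => Ag.mono h (min_le_left _ _), fun _ h => Ag.mono h (min_le_right _ _)⟩
    have hle : (⨅ a : ℚ, 𝓟 {g' | Ag a g g'}) ≤ 𝓝 g :=
      (le_nhds_iff' _ g).2 fun a => hb.mem_of_mem (i := a) trivial
    obtain ⟨a, -, ha⟩ := hb.mem_iff.1 (hle hs)
    exact ⟨a, fun g' hg' => ha hg'⟩
  · rintro ⟨a, ha⟩
    exact (eventually_Ag a g).mono ha

instance instTopGroupG : IsTopologicalGroup G where
  continuous_mul := by
    rw [continuous_iff_continuousAt]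
    rintro ⟨f, g⟩
    refine (le_nhds_iff' _ _).2 fun a => ?_
    rw [eventually_map]
    have h1 := (continuous_fst.tendsto (f, g)).eventually (eventually_Ag (ap g a) f)
    have h2 := (continuous_snd.tendsto (f, g)).eventually (eventually_Ag a g)
    exact (h1.and h2).mono fun p hp => hp.1.mul hp.2
  continuous_inv := by
    rw [continuous_iff_continuousAt]
    intro g
    refine (le_nhds_iff' _ _).2 fun a => ?_
    rw [eventually_map]
    exact (eventually_Ag _ g).mono fun g' hg' => hg'.inv

theorem Phi_injective : Function.Injective Phi := by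
  intro f g h
  refine G_ext fun x => ?_
  obtain ⟨n, hn⟩ := exists_nat_neg_le x
  have h1 : resG n f = resG n g := congrArg Prod.fst (congrFun h n)
  exact resG_eq_iff.1 h1 x hn

theorem Phi_isClosed_range : IsClosed (range Phi) := by
  refine isClosed_of_closure_subset fun p hp => ?_
  have h1 : ∀ N : ℕ, ∃ g : G, ∀ n ≤ N, Phi g n = p n := by
    intro N
    have hopen : {z : ℕ → D × D | ∀ n ≤ N, z n = p n} ∈ 𝓝 p := by
      have : ∀ᶠ z in 𝓝 p, ∀ n ∈ Finset.range (N + 1), z n = p n := by
        rw [eventually_all_finset]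
        intro n _
        have := (continuous_apply n).tendsto p
        rw [nhds_discrete (D × D), tendsto_pure] at this
        exact this
      exact this.mono fun z hz n hn => hz n (Finset.mem_range.2 (Nat.lt_succ_of_le hn))
    obtain ⟨z, hz, g, rfl⟩ := mem_closure_iff_nhds.1 hp _ hopen
    exact ⟨g, hz⟩
  choose g hg using h1
  choose N hN using exists_nat_neg_le
  have key : ∀ (n M M' : ℕ), n ≤ M → n ≤ M' →
      Ag (-(n : ℚ)) (g M) (g M') ∧ Ag (-(n : ℚ)) (g M)⁻¹ (g M')⁻¹ := by
    intro n M M' h h'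
    have e : Phi (g M') n = Phi (g M) n := (hg M' n h').trans (hg M n h).symm
    exact ⟨resG_eq_iff.1 (congrArg Prod.fst e), resG_eq_iff.1 (congrArg Prod.snd e)⟩
  have k1 : ∀ (x : ℚ) (M : ℕ), -(M : ℚ) ≤ x → ap (g (N x)) x = ap (g M) x := by
    intro x M hM
    rcases le_total (N x) M with h | h
    · exact (key (N x) M (N x) h le_rfl).1 x (hN x)
    · exact (key M M (N x) le_rfl h).1 x hM
  have k2 : ∀ (x : ℚ) (M : ℕ), -(M : ℚ) ≤ x → ap (g (N x))⁻¹ x = ap (g M)⁻¹ x := by
    intro x M hM
    rcases le_total (N x) M with h | h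
    · exact (key (N x) M (N x) h le_rfl).2 x (hN x)
    · exact (key M M (N x) le_rfl h).2 x hM
  let f : P :=
    { toFun := fun x => ap (g (N x)) x
      invFun := fun y => ap (g (N y))⁻¹ y
      left_inv := by
        intro x
        obtain ⟨M, hM⟩ := exists_nat_neg_le (min x (ap (g (N x)) x))
        have e1 := k1 x M (hM.trans (min_le_left _ _))
        have e2 := k2 _ M (hM.trans (min_le_right _ _))
        simp only
        rw [e2, e1, ap_inv_self]
      right_inv := by
        intro y
        obtain ⟨M, hM⟩ := exists_nat_neg_le (min y (ap (g (N y))⁻¹ y))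
        have e1 := k2 y M (hM.trans (min_le_left _ _))
        have e2 := k1 _ M (hM.trans (min_le_right _ _))
        simp only
        rw [e2, e1, ap_self_inv]
      map_rel_iff' := by
        intro x y
        obtain ⟨M, hM⟩ := exists_nat_neg_le (min x y)
        have e1 := k1 x M (hM.trans (min_le_left _ _))
        have e2 := k1 y M (hM.trans (min_le_right _ _))
        simp only [Equiv.coe_fn_mk]
        rw [e1, e2]
        exact (ap (g M)).le_iff_le }
  have hf : f ∈ GS := by
    intro a
    obtain ⟨w, hw⟩ := ap_mem (g (N a)) a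
    exact ⟨w, fun x hx => (k1 x (N a) ((hN a).trans hx)).trans (hw x hx)⟩
  let F : G := (⟨f, hf⟩ : GS)
  refine ⟨F, funext fun n => ?_⟩
  rw [← hg n n le_rfl]
  refine Prod.ext (resG_eq_iff.2 fun x hx => ?_) (resG_eq_iff.2 fun x hx => ?_)
  · exact k1 x n hx
  · exact k2 x n hx

theorem Phi_isClosedEmbedding : IsClosedEmbedding Phi :=
  ⟨⟨Phi_inducing, Phi_injective⟩, Phi_isClosed_range⟩

instance instPolishG : PolishSpace G := Phi_isClosedEmbedding.polishSpace

end Pool.Agent.MP_a4a5b6_lc.H97
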